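import Mathlib

set_option autoImplicit false

/-! GP: arithmetic lemmas (the same lemmas are in `H256R2.SC.G1` and `H378R2.PS.Main`, which cannot be
imported together with `H256R2.SC.Par`). -/

open Finset

namespace Pool.Agent.TH662.GP

theorem exists_crt (n : ℕ) (a : ℕ → ℕ) :
    ∃ b0 : ℕ, b0 < primorial n ∧ ∀ p : ℕ, p.Prime → p ≤ n → b0 ≡ a p [MOD p] := by
  have hs : ∀ i ∈ (range (n + 1)).filter Nat.Prime, (id i : ℕ) ≠ 0 := fun i hi =>
    (mem_filter.1 hi).2.ne_zero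
  have pp : Set.Pairwise (((range (n + 1)).filter Nat.Prime : Finset ℕ) : Set ℕ)
      (Function.onFun Nat.Coprime id) := by
    intro i hi j hj hij
    have hi' := (mem_filter.1 (mem_coe.1 hi)).2
    have hj' := (mem_filter.1 (mem_coe.1 hj)).2
    exact (Nat.coprime_primes hi' hj').2 hij
  refine ⟨Nat.chineseRemainderOfFinset a id _ hs pp, ?_, ?_⟩
  · exact Nat.chineseRemainderOfFinset_lt_prod a id hs pp
  · intro p hp hpn
    exact (Nat.chineseRemainderOfFinset a id _ hs pp).2 p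
      (mem_filter.2 ⟨mem_range.2 (by omega), hp⟩)

theorem count_Ioc (a b : ℤ) (hab : a ≤ b) (q : ℕ) (hq : 0 < q) (r : ℤ) :
    |((((Ioc a b).filter (fun x => (q : ℤ) ∣ x - r)).card : ℕ) : ℝ) - ((b : ℝ) - a) / q| ≤ 1 := by
  have hq' : (0 : ℤ) < (q : ℤ) := by exact_mod_cast hq
  have h1 := Int.Ioc_filter_modEq_card a b hq' r
  have h2 : (Ioc a b).filter (fun x => (q : ℤ) ∣ x - r) =
      (Ioc a b).filter (fun x => x ≡ r [ZMOD q]) := by
    refine filter_congr fun x _ => ?_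
    rw [Int.modEq_comm, Int.modEq_iff_dvd]
  rw [h2]
  have hqQ : (0 : ℚ) < q := by exact_mod_cast hq
  have hmono : ⌊((a : ℚ) - r) / ((q : ℤ) : ℚ)⌋ ≤ ⌊((b : ℚ) - r) / ((q : ℤ) : ℚ)⌋ := by
    apply Int.floor_le_floor
    have : (a : ℚ) ≤ b := by exact_mod_cast hab
    push_cast
    gcongr
  rw [max_eq_left (by linarith)] at h1
  have h3 : ((((Ioc a b).filter (fun x => x ≡ r [ZMOD q])).card : ℕ) : ℚ) =
      ((⌊((b : ℚ) - r) / ((q : ℤ) : ℚ)⌋ - ⌊((a : ℚ) - r) / ((q : ℤ) : ℚ)⌋ : ℤ) : ℚ) := by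
    rw [← h1]
    simp
  have h4 : |((((Ioc a b).filter (fun x => x ≡ r [ZMOD q])).card : ℕ) : ℚ) -
      ((b : ℚ) - a) / q| ≤ 1 := by
    rw [h3]
    have e1 := Int.floor_le (((b : ℚ) - r) / ((q : ℤ) : ℚ))
    have e2 := Int.lt_floor_add_one (((b : ℚ) - r) / ((q : ℤ) : ℚ))
    have e3 := Int.floor_le (((a : ℚ) - r) / ((q : ℤ) : ℚ))
    have e4 := Int.lt_floor_add_one (((a : ℚ) - r) / ((q : ℤ) : ℚ))
    have e5 : ((b : ℚ) - a) / q = ((b : ℚ) - r) / ((q : ℤ) : ℚ) - ((a : ℚ) - r) / ((q : ℤ) : ℚ) := by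
      push_cast
      ring
    rw [e5, abs_le]
    push_cast
    push_cast at e1 e2 e3 e4
    constructor <;> linarith
  have h5 : ((|((((Ioc a b).filter (fun x => x ≡ r [ZMOD q])).card : ℕ) : ℚ) -
      ((b : ℚ) - a) / q| : ℚ) : ℝ) ≤ ((1 : ℚ) : ℝ) := by exact_mod_cast h4
  push_cast at h5
  exact h5

/-- counting the integers of an interval in a class mod `P` and a class mod `q` -/
theorem count_two (A B : ℤ) (hAB : A ≤ B) (P q : ℕ) (hP : 0 < P) (hq : 0 < q)
    (hc : Nat.Coprime P q) (b r : ℤ) :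
    |((((Ioc A B).filter (fun x => (P : ℤ) ∣ x - b)).filter (fun x => (q : ℤ) ∣ x - r)).card : ℝ) -
      (((B : ℝ) - A) / P) / q| ≤ 1 := by
  have hcop : IsCoprime (P : ℤ) (q : ℤ) := Nat.isCoprime_iff_coprime.mpr hc
  obtain ⟨u, v, huv⟩ := hcop
  set c : ℤ := b + P * u * (r - b) with hcdef
  have h1 : (((Ioc A B).filter (fun x => (P : ℤ) ∣ x - b)).filter (fun x => (q : ℤ) ∣ x - r)) =
      (Ioc A B).filter (fun x => ((P * q : ℕ) : ℤ) ∣ x - c) := by
    rw [Finset.filter_filter]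
    apply Finset.filter_congr
    intro x _
    push_cast
    constructor
    · rintro ⟨h2, h3⟩
      apply IsCoprime.mul_dvd (Nat.isCoprime_iff_coprime.mpr hc)
      · have e : x - c = (x - b) - P * (u * (r - b)) := by rw [hcdef]; ring
        rw [e]
        exact dvd_sub h2 (dvd_mul_right _ _)
      · have e : x - c = (x - r) + q * (v * (r - b)) := by
          rw [hcdef]
          linear_combination (-(r - b)) * huv
        rw [e]
        exact dvd_add h3 (dvd_mul_right _ _)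
    · intro h2
      have hP' : (P : ℤ) ∣ x - c := (dvd_mul_right _ _).trans h2
      have hq' : (q : ℤ) ∣ x - c := (dvd_mul_left _ _).trans h2
      constructor
      · have e : x - b = (x - c) + P * (u * (r - b)) := by rw [hcdef]; ring
        rw [e]
        exact dvd_add hP' (dvd_mul_right _ _)
      · have e : x - r = (x - c) - q * (v * (r - b)) := by
          rw [hcdef]
          linear_combination (r - b) * huv
        rw [e]
        exact dvd_sub hq' (dvd_mul_right _ _)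
  rw [h1]
  have h2 := count_Ioc A B hAB (P * q) (Nat.mul_pos hP hq) c
  have e : (((B : ℝ) - A) / P) / q = ((B : ℝ) - A) / ((P * q : ℕ) : ℝ) := by
    push_cast
    rw [div_div]
  rw [e]
  exact h2

theorem toNat_mod (a : ℤ) (p : ℕ) (hp : 0 < p) : (p : ℤ) ∣ (((a % (p : ℤ)).toNat : ℕ) : ℤ) - a := by
  have h0 : (0 : ℤ) ≤ a % (p : ℤ) := Int.emod_nonneg _ (by exact_mod_cast hp.ne')
  rw [Int.toNat_of_nonneg h0]
  have := Int.emod_add_mul_ediv a (p : ℤ)
  exact ⟨-(a / p), by linarith⟩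

end Pool.Agent.TH662.GP
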