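import Pool.Agent.TH662.GP.Run

set_option autoImplicit false

/-! GP: large gaps in the sequence of the integers with at most two prime factors. -/

open Filter

namespace Pool.Agent.TH662.GP

/-- the sequence contains the primes -/
theorem inf_two : {n : ℕ | 0 < n ∧ n.primeFactorsList.length ≤ 2}.Infinite := by
  apply Nat.infinite_setOfPred_prime.mono
  intro p hp
  refine ⟨Nat.Prime.pos hp, ?_⟩
  rw [Nat.primeFactorsList_prime hp]
  simp

theorem gaps (M : ℝ) (K : ℕ) : ∃ k : ℕ, K ≤ k ∧ 1 ≤ k ∧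
      ((Nat.nth (fun n : ℕ => 0 < n ∧ n.primeFactorsList.length ≤ 2) k : ℕ) : ℝ)
        - ((Nat.nth (fun n : ℕ => 0 < n ∧ n.primeFactorsList.length ≤ 2) (k - 1) : ℕ) : ℝ)
        > M * Real.log (k : ℝ) := by
  obtain ⟨M', hM'⟩ : ∃ M' : ℕ, M' = 40 * (⌈|M|⌉₊ + 1) := ⟨_, rfl⟩
  set P : ℕ → Prop := fun n : ℕ => 0 < n ∧ n.primeFactorsList.length ≤ 2 with hP
  have hinf : (Set.ofPred P).Infinite := inf_two
  have t1 := Real.tendsto_log_atTop
  obtain ⟨X, ⟨n, hn1, hn2, hn3⟩, hX1, hX2, hX3⟩ := ((run_three M' (by omega)).and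
    ((eventually_ge_atTop (4 * ((Nat.nth P K : ℕ) : ℝ) + 8)).and
      ((t1.eventually_ge_atTop 40).and (eventually_ge_atTop (8 : ℝ))))).exists
  have hKn : Nat.nth P K < n := by
    have h1 : ((Nat.nth P K : ℕ) : ℝ) < n := by linarith
    exact_mod_cast h1
  obtain ⟨k, hk⟩ : ∃ k : ℕ, k = Nat.count P (n + 1) := ⟨_, rfl⟩
  have hKk : K + 1 ≤ k := by
    have h1 : Nat.count P (Nat.nth P (K)) = K := Nat.count_nth_of_infinite hinf K
    have h2 : Nat.count P (Nat.nth P K + 1) = K + 1 := by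
      rw [Nat.count_succ, h1, if_pos (Nat.nth_mem_of_infinite hinf K)]
    rw [hk, ← h2]
    exact Nat.count_monotone P (by omega)
  have hkn : k ≤ n + 1 := by rw [hk]; exact Nat.count_le P
  refine ⟨k, by omega, by omega, ?_⟩
  have h1 : Nat.nth P (k - 1) < n + 1 := Nat.nth_lt_of_lt_count (by omega)
  have h2 : n + 1 ≤ Nat.nth P k := (Nat.count_le_iff_le_nth hinf).1 hk.ge
  have h3 : n + M' * ⌊Real.log X / 10⌋₊ < Nat.nth P k := by
    by_contra hcon
    push Not at hcon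
    have h4 := hn3 (Nat.nth P k - n) (by omega) (by omega)
    have h5 := (Nat.nth_mem_of_infinite hinf k).2
    rw [show n + (Nat.nth P k - n) = Nat.nth P k by omega] at h4
    omega
  have h4 : (n : ℝ) + M' * (⌊Real.log X / 10⌋₊ : ℕ) + 1 ≤ (Nat.nth P k : ℕ) := by exact_mod_cast h3
  have h5 : ((Nat.nth P (k - 1) : ℕ) : ℝ) + 1 ≤ n + 1 := by exact_mod_cast h1
  have h6 : Real.log k ≤ Real.log X + 1 := by
    have h7 : (k : ℝ) ≤ 2 * X := by
      have : (k : ℝ) ≤ n + 1 := by exact_mod_cast hkn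
      linarith
    have hk0 : (0 : ℝ) < k := by
      have : 0 < k := by omega
      exact_mod_cast this
    have h8 : Real.log k ≤ Real.log (2 * X) := Real.log_le_log hk0 h7
    rw [Real.log_mul (by norm_num) (by linarith)] at h8
    have := Real.log_two_lt_d9
    linarith
  have hk1 : 0 ≤ Real.log (k : ℝ) := Real.log_natCast_nonneg k
  have h7 : M * Real.log k ≤ |M| * (Real.log X + 1) := by
    calc M * Real.log k ≤ |M| * Real.log k := mul_le_mul_of_nonneg_right (le_abs_self M) hk1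
      _ ≤ |M| * (Real.log X + 1) := mul_le_mul_of_nonneg_left h6 (abs_nonneg M)
  have h8 : Real.log X / 10 - 1 ≤ (⌊Real.log X / 10⌋₊ : ℕ) := (Nat.sub_one_lt_floor _).le
  have h9 : 40 * (|M| + 1) ≤ (M' : ℝ) := by
    rw [hM']
    push_cast
    have := Nat.le_ceil (|M|)
    linarith
  have h10 : 40 * (|M| + 1) * (Real.log X / 10 - 1) ≤ M' * (⌊Real.log X / 10⌋₊ : ℕ) := by
    apply mul_le_mul h9 h8 (by linarith) (Nat.cast_nonneg _)
  have h11 : 0 ≤ |M| := abs_nonneg M
  have h12 : |M| * (Real.log X + 1) ≤ 40 * (|M| + 1) * (Real.log X / 10 - 1) := by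
    nlinarith [mul_nonneg h11 (show (0:ℝ) ≤ Real.log X - 40 by linarith)]
  linarith

end Pool.Agent.TH662.GP
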