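import Mathlib
import Pool.Agent.TH662.CP.Count

set_option autoImplicit false

/-! GP: complete covering of `[1, M y]` by residue classes modulo the primes of `(z, y]`
(Westzynthius). -/

open Finset Filter

namespace Pool.Agent.TH662.GP

open scoped Classical

/-- The greedy choice of residue classes. -/
theorem greedy (P : Finset ℕ) (hP : ∀ p ∈ P, 0 < p) (S : Finset ℕ) :
    ∃ b : ℕ → ℕ, ((S.filter (fun s => ∀ p ∈ P, ¬ s ≡ b p [MOD p])).card : ℝ) ≤
      (∏ p ∈ P, (1 - 1 / (p : ℝ))) * S.card := by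
  induction P using Finset.induction_on generalizing S with
  | empty => exact ⟨fun _ => 0, by simp⟩
  | insert p P hp ih =>
    have hp0 : 0 < p := hP p (mem_insert_self _ _)
    have hp0' : (0 : ℝ) < p := by exact_mod_cast hp0
    have h1 : ∃ r ∈ range p, (S.card : ℝ) / p ≤ ((S.filter (fun s => s % p = r)).card : ℝ) := by
      by_contra hcon
      push Not at hcon
      have h2 : S.card = ∑ r ∈ range p, (S.filter (fun s => s % p = r)).card :=
        card_eq_sum_card_fiberwise (fun s _ => by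
          simp only [coe_range, Set.mem_Iio]; exact Nat.mod_lt _ hp0)
      have h3 : (S.card : ℝ) = ∑ r ∈ range p, ((S.filter (fun s => s % p = r)).card : ℝ) := by
        conv_lhs => rw [h2]
        push_cast; rfl
      have h4 : ∑ r ∈ range p, ((S.filter (fun s => s % p = r)).card : ℝ) <
          ∑ r ∈ range p, (S.card : ℝ) / p :=
        sum_lt_sum_of_nonempty ⟨0, mem_range.2 hp0⟩ (fun r hr => hcon r hr)
      rw [sum_const, card_range, nsmul_eq_mul, mul_div_cancel₀ _ hp0'.ne'] at h4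
      linarith
    obtain ⟨r, hr, hcard⟩ := h1
    obtain ⟨b, hb⟩ := ih (fun q hq => hP q (mem_insert_of_mem hq)) (S.filter (fun s => ¬ s % p = r))
    refine ⟨Function.update b p r, ?_⟩
    have h2 : S.filter (fun s => ∀ q ∈ insert p P, ¬ s ≡ Function.update b p r q [MOD q]) ⊆
        (S.filter (fun s => ¬ s % p = r)).filter (fun s => ∀ q ∈ P, ¬ s ≡ b q [MOD q]) := by
      intro s hs
      rw [mem_filter] at hs
      rw [mem_filter, mem_filter]
      refine ⟨⟨hs.1, ?_⟩, ?_⟩
      · intro h3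
        apply hs.2 p (mem_insert_self _ _)
        rw [Function.update_self]
        unfold Nat.ModEq
        rw [h3, Nat.mod_eq_of_lt (mem_range.1 hr)]
      · intro q hq
        have h3 := hs.2 q (mem_insert_of_mem hq)
        rwa [Function.update_of_ne (fun h => hp (by rw [← h]; exact hq))] at h3
    have h3 : ((S.filter (fun s => s % p = r)).card : ℝ) +
        ((S.filter (fun s => ¬ s % p = r)).card : ℝ) = S.card := by
      exact_mod_cast Finset.card_filter_add_card_filter_not (s := S) (fun s => s % p = r)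
    have h4 : ((S.filter (fun s => ¬ s % p = r)).card : ℝ) ≤ (1 - 1 / (p : ℝ)) * S.card := by
      have : (1 - 1 / (p : ℝ)) * S.card = S.card - S.card / p := by ring
      rw [this]
      linarith
    have h5 : 0 ≤ ∏ q ∈ P, (1 - 1 / (q : ℝ)) := by
      apply prod_nonneg
      intro q hq
      have : (1 : ℝ) ≤ q := by exact_mod_cast hP q (mem_insert_of_mem hq)
      have h6 : 1 / (q : ℝ) ≤ 1 := by
        rw [div_le_one (by linarith)]; exact this
      linarith
    calc ((S.filter (fun s => ∀ q ∈ insert p P, ¬ s ≡ Function.update b p r q [MOD q])).card : ℝ)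
        ≤ _ := by exact_mod_cast card_le_card h2
      _ ≤ (∏ q ∈ P, (1 - 1 / (q : ℝ))) * ((S.filter (fun s => ¬ s % p = r)).card : ℝ) := hb
      _ ≤ (∏ q ∈ P, (1 - 1 / (q : ℝ))) * ((1 - 1 / (p : ℝ)) * S.card) :=
          mul_le_mul_of_nonneg_left h4 h5
      _ = (∏ q ∈ insert p P, (1 - 1 / (q : ℝ))) * S.card := by
          rw [prod_insert hp]; ring

/-- The product of `1 - 1/p` over the primes of `(z, w]` tends to zero. -/
theorem prod_small (z : ℕ) (ε : ℝ) (hε : 0 < ε) :
    ∃ w : ℕ, z < w ∧ ∏ p ∈ (Ioc z w).filter Nat.Prime, (1 - 1 / (p : ℝ)) ≤ ε := by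
  have h0 : Tendsto (fun n : ℕ => ∑ i ∈ range n,
      ({p | Nat.Prime p} : Set ℕ).indicator (fun n : ℕ => (1 : ℝ) / n) i) atTop atTop := by
    refine (not_summable_iff_tendsto_nat_atTop_of_nonneg ?_).1 not_summable_one_div_on_primes
    intro n
    exact Set.indicator_nonneg (fun n _ => by positivity) n
  set C : ℝ := ∑ i ∈ range (z + 1),
      ({p | Nat.Prime p} : Set ℕ).indicator (fun n : ℕ => (1 : ℝ) / n) i with hC
  obtain ⟨w, hw1, hw2⟩ := ((h0.eventually (eventually_ge_atTop (C - Real.log ε))).and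
    (eventually_ge_atTop (z + 2))).exists
  refine ⟨w - 1, by omega, ?_⟩
  have h1 : ∏ p ∈ (Ioc z (w - 1)).filter Nat.Prime, (1 - 1 / (p : ℝ)) ≤
      ∏ p ∈ (Ioc z (w - 1)).filter Nat.Prime, Real.exp (-(1 / (p : ℝ))) := by
    apply Finset.prod_le_prod
    · intro p hp
      have h2 := (mem_filter.1 hp).2.one_lt
      have h3 : (1 : ℝ) < p := by exact_mod_cast h2
      have h4 : 1 / (p : ℝ) < 1 := by rw [div_lt_one (by linarith)]; exact h3
      linarith
    · intro p hp
      have := Real.add_one_le_exp (-(1 / (p : ℝ)))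
      linarith
  refine h1.trans ?_
  rw [← Real.exp_sum, sum_neg_distrib]
  have h2 : ∑ i ∈ range w, ({p | Nat.Prime p} : Set ℕ).indicator (fun n : ℕ => (1 : ℝ) / n) i =
      C + ∑ p ∈ (Ioc z (w - 1)).filter Nat.Prime, 1 / (p : ℝ) := by
    have h3 : range w = range (z + 1) ∪ Ioc z (w - 1) := by
      ext i; simp only [mem_range, mem_union, mem_Ioc]; omega
    have h4 : Disjoint (range (z + 1)) (Ioc z (w - 1)) := by
      rw [disjoint_left]; intro i; simp only [mem_range, mem_Ioc]; omega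
    rw [h3, sum_union h4, ← hC, sum_filter]
    congr 1
    apply sum_congr rfl
    intro i _
    rw [Set.indicator_apply]
    simp only [Set.mem_ofPred_eq]
  rw [h2] at hw1
  have h5 : -Real.log ε ≤ ∑ p ∈ (Ioc z (w - 1)).filter Nat.Prime, 1 / (p : ℝ) := by linarith
  calc Real.exp (-∑ p ∈ (Ioc z (w - 1)).filter Nat.Prime, 1 / (p : ℝ))
      ≤ Real.exp (Real.log ε) := Real.exp_le_exp.2 (by linarith)
    _ = ε := Real.exp_log hε

/-- Analytic input: the final comparison. -/
theorem ev_final (M W : ℕ) (hM : 0 < M) :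
    ∀ᶠ y : ℝ in atTop, 1 < y ∧
      ((Nat.primeCounting ⌊M * y⌋₊ : ℕ) : ℝ) ≤ 4 * M * y / Real.log y ∧
      2 ^ W * Real.sqrt (M * y) ≤ y / (32 * Real.log y) ∧
      y / (8 * Real.log y) ≤ (((Finset.Ioc ⌊y / 2⌋₊ ⌊y⌋₊).filter Nat.Prime).card : ℝ) := by
  have hM0 : (0 : ℝ) < M := by exact_mod_cast hM
  have hM1 : (1 : ℝ) ≤ M := by exact_mod_cast hM
  -- the number of primes
  have h1 := CP.count_primes_mod 1 one_pos 0 (by norm_num)
  have h2 : Tendsto (fun y : ℝ => y / 2) atTop atTop := tendsto_id.atTop_div_const (by norm_num)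
  have h3 := h2.eventually h1
  -- `sqrt` is small
  have h4 := (isLittleO_log_rpow_atTop (show (0 : ℝ) < 1 / 4 by norm_num)).def
    (show (0 : ℝ) < 1 by norm_num)
  have h5 : ∀ᶠ x : ℝ in atTop, 2 ^ W * 32 * Real.sqrt M + 1 ≤ x ^ (1 / 4 : ℝ) :=
    (tendsto_rpow_atTop (show (0 : ℝ) < 1 / 4 by norm_num)).eventually_ge_atTop _
  filter_upwards [h3, h4, h5, eventually_ge_atTop (4 : ℝ)] with y e1 e2 e3 e4
  have hlogy : 0 < Real.log y := Real.log_pos (by linarith)
  rw [one_mul, Real.norm_of_nonneg hlogy.le, Real.norm_of_nonneg (Real.rpow_nonneg (by linarith) _)]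
    at e2
  set u := y ^ (1 / 4 : ℝ) with hu
  have hu0 : 0 ≤ u := Real.rpow_nonneg (by linarith) _
  have hu4 : u ^ 4 = y := by
    rw [hu, ← Real.rpow_natCast, ← Real.rpow_mul (by linarith)]; norm_num
  have hsq : Real.sqrt y = u ^ 2 := by
    rw [← hu4, show u ^ 4 = (u ^ 2) ^ 2 by ring, Real.sqrt_sq (by positivity)]
  have hW0 : (0 : ℝ) ≤ 2 ^ W * 32 * Real.sqrt M := by positivity
  have hu1 : 1 ≤ u := by linarith
  have key : 2 ^ W * Real.sqrt (M * y) ≤ y / (32 * Real.log y) := by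
    rw [Real.sqrt_mul hM0.le, hsq, le_div_iff₀ (by positivity)]
    calc 2 ^ W * (Real.sqrt M * u ^ 2) * (32 * Real.log y)
        = (2 ^ W * 32 * Real.sqrt M) * u ^ 2 * Real.log y := by ring
      _ ≤ (2 ^ W * 32 * Real.sqrt M) * u ^ 2 * u := by
          exact mul_le_mul_of_nonneg_left e2 (by positivity)
      _ ≤ u * u ^ 2 * u := by
          have : 2 ^ W * 32 * Real.sqrt M ≤ u := by linarith
          have h6 := mul_le_mul_of_nonneg_right this (show 0 ≤ u ^ 2 * u by positivity)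
          calc (2 ^ W * 32 * Real.sqrt M) * u ^ 2 * u = (2 ^ W * 32 * Real.sqrt M) * (u ^ 2 * u) := by ring
            _ ≤ u * (u ^ 2 * u) := h6
            _ = _ := by ring
      _ = y := by rw [← hu4]; ring
  refine ⟨by linarith, ?_, key, ?_⟩
  · have hMy : 1 < M * y := by nlinarith
    have h6 := Chebyshev.pi_le_log4_mul_div hMy
    have h7 : Real.log (Real.sqrt (M * y)) = Real.log (M * y) / 2 := Real.log_sqrt (by linarith)
    have h8 : Real.log y ≤ Real.log (M * y) := Real.log_le_log (by linarith) (by nlinarith)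
    have h9 : Real.log 4 * (M * y) / Real.log (Real.sqrt (M * y)) ≤ 3 * M * y / Real.log y := by
      rw [h7, div_le_div_iff₀ (by linarith) hlogy]
      have h10 : Real.log 4 ≤ 3 / 2 := by
        have : Real.log 4 = 2 * Real.log 2 := by
          rw [show (4 : ℝ) = 2 ^ (2 : ℕ) by norm_num, Real.log_pow]; norm_num
        have := Real.log_two_lt_d9
        linarith
      have h11 : 0 < M * y := by positivity
      calc Real.log 4 * (M * y) * Real.log y ≤ (3 / 2) * (M * y) * Real.log (M * y) := by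
            apply mul_le_mul _ h8 hlogy.le (by positivity)
            exact mul_le_mul_of_nonneg_right h10 h11.le
        _ = 3 * M * y * (Real.log (M * y) / 2) := by ring
    have h12 : Real.sqrt (M * y) ≤ y / (32 * Real.log y) := by
      refine le_trans ?_ key
      have : (1 : ℝ) ≤ 2 ^ W := one_le_pow₀ (by norm_num)
      have h13 := mul_le_mul_of_nonneg_right this (Real.sqrt_nonneg (M * y))
      linarith
    have h14 : y / (32 * Real.log y) ≤ M * y / Real.log y := by
      rw [div_le_div_iff₀ (by positivity) hlogy]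
      nlinarith [mul_pos (show 0 < y by linarith) hlogy]
    calc ((Nat.primeCounting ⌊M * y⌋₊ : ℕ) : ℝ) ≤ _ := h6
      _ ≤ 3 * M * y / Real.log y + M * y / Real.log y := by linarith
      _ = 4 * M * y / Real.log y := by ring
  · have h6 : (Finset.Ioc ⌊y / 2⌋₊ ⌊2 * (y / 2)⌋₊).filter (fun p => p.Prime ∧ p ≡ 0 [MOD 1]) =
        (Finset.Ioc ⌊y / 2⌋₊ ⌊y⌋₊).filter Nat.Prime := by
      rw [show 2 * (y / 2) = y by ring]
      apply filter_congr
      intro p _
      simp [Nat.modEq_one]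
    rw [h6] at e1
    refine le_trans ?_ e1
    rw [Nat.totient_one]
    have h7 : Real.log (y / 2) ≤ Real.log y := Real.log_le_log (by linarith) (by linarith)
    have h8 : 0 < Real.log (y / 2) := Real.log_pos (by linarith)
    rw [div_le_div_iff₀ (by positivity) (by push_cast; linarith)]
    push_cast
    nlinarith [mul_le_mul_of_nonneg_left h7 (show 0 ≤ y by linarith)]

/-- Westzynthius: `[1, M y]` is covered by residue classes modulo the primes of `(z, y]`. -/
theorem westz (M z : ℕ) (hM : 0 < M) :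
    ∃ y₀ : ℕ, ∀ y : ℕ, y₀ ≤ y → ∃ a : ℕ → ℕ, ∀ s, 1 ≤ s → s ≤ M * y →
      ∃ p, p.Prime ∧ z < p ∧ p ≤ y ∧ s ≡ a p [MOD p] := by
  have hM0 : (0 : ℝ) < M := by exact_mod_cast hM
  have hM1 : (1 : ℝ) ≤ M := by exact_mod_cast hM
  obtain ⟨w, hzw, hw⟩ := prod_small z (1 / (256 * M * M)) (by positivity)
  obtain ⟨y₁, hy₁⟩ := eventually_atTop.1 (ev_final M (Nat.primesBelow (w + 1)).card hM)
  refine ⟨max (⌈y₁⌉₊) (2 * w + 2), fun y hy => ?_⟩
  have hyw : 2 * w + 2 ≤ y := (le_max_right _ _).trans hy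
  obtain ⟨f1, f2, f3, f4⟩ := hy₁ y ((Nat.le_ceil _).trans (by exact_mod_cast (le_max_left _ _).trans hy))
  have hfl : ⌊(y : ℝ)⌋₊ = y := Nat.floor_natCast y
  have hfl2 : ⌊(y : ℝ) / 2⌋₊ = y / 2 := by
    have := Nat.floor_div_natCast (y : ℝ) 2
    simpa using this
  have hfl3 : ⌊(M : ℝ) * y⌋₊ = M * y := by exact_mod_cast Nat.floor_natCast (M * y)
  rw [hfl, hfl2] at f4
  rw [hfl3] at f2
  have hlogy : 0 < Real.log y := Real.log_pos f1
  -- the survivors of the classes `0`
  obtain ⟨S, hS⟩ : ∃ S : Finset ℕ, S = (Finset.Icc 1 (M * y)).filter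
    (fun s => ∀ p, p.Prime → w < p → p ≤ y / 2 → ¬ p ∣ s) := ⟨_, rfl⟩
  obtain ⟨S₁, hS₁⟩ : ∃ S₁ : Finset ℕ, S₁ = S.filter (fun s => s ∈ Nat.smoothNumbers (w + 1)) :=
    ⟨_, rfl⟩
  obtain ⟨S₂, hS₂⟩ : ∃ S₂ : Finset ℕ, S₂ = S.filter (fun s => s ∉ Nat.smoothNumbers (w + 1)) :=
    ⟨_, rfl⟩
  have hS₁c : (S₁.card : ℝ) ≤ y / (32 * Real.log y) := by
    have h1 : S₁ ⊆ Nat.smoothNumbersUpTo (M * y) (w + 1) := by
      intro s hs
      rw [hS₁, mem_filter, hS, mem_filter, mem_Icc] at hs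
      rw [Nat.mem_smoothNumbersUpTo]
      exact ⟨hs.1.1.2, hs.2⟩
    have h2 := (card_le_card h1).trans (Nat.smoothNumbersUpTo_card_le (M * y) (w + 1))
    have h3 : (S₁.card : ℝ) ≤ 2 ^ (Nat.primesBelow (w + 1)).card * ((Nat.sqrt (M * y) : ℕ) : ℝ) := by
      exact_mod_cast h2
    refine h3.trans (le_trans ?_ f3)
    apply mul_le_mul_of_nonneg_left _ (by positivity)
    have h4 := Real.nat_sqrt_le_real_sqrt (a := M * y)
    exact_mod_cast h4
  have hS₂c : (S₂.card : ℝ) ≤ 2 * M * (4 * M * y / Real.log y) := by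
    have h1 : S₂ ⊆ ((Finset.range (2 * M)) ×ˢ (Nat.primesLE (M * y))).image
        (fun t => t.1 * t.2) := by
      intro s hs
      rw [hS₂, mem_filter, hS, mem_filter, mem_Icc] at hs
      obtain ⟨⟨⟨h1, h2⟩, h3⟩, h4⟩ := hs
      rw [Nat.mem_smoothNumbers'] at h4
      push Not at h4
      obtain ⟨q, hq1, hq2, hq3⟩ := h4
      have h5 : y / 2 < q := by
        by_contra hcon
        exact h3 q hq1 (by omega) (by omega) hq2
      obtain ⟨m, hm⟩ := hq2
      rw [mem_image]
      refine ⟨(m, q), ?_, by rw [hm]; ring⟩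
      rw [mem_product, mem_range, Nat.mem_primesLE]
      have h6 : q ≤ s := Nat.le_of_dvd h1 ⟨m, hm⟩
      refine ⟨?_, h6.trans h2, hq1⟩
      by_contra hcon
      push Not at hcon
      have h7 : y < 2 * q := by omega
      have h8 : q * (2 * M) ≤ M * y := by
        calc q * (2 * M) ≤ q * m := Nat.mul_le_mul_left _ hcon
          _ = s := hm.symm
          _ ≤ M * y := h2
      have h9 : M * y < M * (2 * q) := Nat.mul_lt_mul_of_pos_left h7 hM
      have h10 : M * (2 * q) = q * (2 * M) := by ring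
      omega
    have h2 := (card_le_card h1).trans card_image_le
    rw [card_product, card_range, Nat.primesLE_card_eq_primeCounting] at h2
    have h3 : (S₂.card : ℝ) ≤ (2 * M) * ((Nat.primeCounting (M * y) : ℕ) : ℝ) := by exact_mod_cast h2
    refine h3.trans ?_
    exact mul_le_mul_of_nonneg_left f2 (by positivity)
  -- the greedy step
  obtain ⟨b, hb⟩ := greedy ((Ioc z w).filter Nat.Prime)
    (fun p hp => (mem_filter.1 hp).2.pos) S₂
  obtain ⟨S₃, hS₃⟩ : ∃ S₃ : Finset ℕ, S₃ = S₁ ∪ S₂.filter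
    (fun s => ∀ p ∈ (Ioc z w).filter Nat.Prime, ¬ s ≡ b p [MOD p]) := ⟨_, rfl⟩
  have hS₃c : S₃.card ≤ ((Finset.Ioc (y / 2) y).filter Nat.Prime).card := by
    have h1 : (S₃.card : ℝ) ≤ y / (32 * Real.log y) + y / (32 * Real.log y) := by
      have h2 : (S₃.card : ℝ) ≤ S₁.card + (S₂.filter
        (fun s => ∀ p ∈ (Ioc z w).filter Nat.Prime, ¬ s ≡ b p [MOD p])).card := by
        rw [hS₃]; exact_mod_cast card_union_le _ _
      refine h2.trans (add_le_add hS₁c (hb.trans ?_))
      calc (∏ p ∈ (Ioc z w).filter Nat.Prime, (1 - 1 / (p : ℝ))) * S₂.card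
          ≤ (1 / (256 * M * M)) * (2 * M * (4 * M * y / Real.log y)) :=
            mul_le_mul hw hS₂c (Nat.cast_nonneg _) (by positivity)
        _ = y / (32 * Real.log y) := by field_simp; norm_num
    have h2 : (S₃.card : ℝ) ≤ (((Finset.Ioc (y / 2) y).filter Nat.Prime).card : ℝ) := by
      refine h1.trans (le_trans ?_ f4)
      rw [← add_div, div_le_div_iff₀ (by positivity) (by positivity)]
      have : 0 < (y : ℝ) * Real.log y := by positivity
      nlinarith
    exact_mod_cast h2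
  obtain ⟨T, hT1, hT2⟩ := exists_subset_card_eq hS₃c
  obtain ⟨e⟩ : Nonempty (S₃ ≃ T) := ⟨Finset.equivOfCardEq hT2.symm⟩
  refine ⟨fun p => if p ≤ w then b p else if p ≤ y / 2 then 0 else
    if h : p ∈ T then ((e.symm ⟨p, h⟩ : S₃) : ℕ) else 0, fun s hs1 hs2 => ?_⟩
  by_cases hsS : s ∈ S
  · by_cases hs3 : s ∈ S₃
    · have h1 : ((e ⟨s, hs3⟩ : T) : ℕ) ∈ T := (e ⟨s, hs3⟩).2
      have h2 := mem_filter.1 (hT1 h1)
      rw [mem_Ioc] at h2
      refine ⟨(e ⟨s, hs3⟩ : T), h2.2, by omega, h2.1.2, ?_⟩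
      have h3 : ¬ ((e ⟨s, hs3⟩ : T) : ℕ) ≤ w := by omega
      have h4 : ¬ ((e ⟨s, hs3⟩ : T) : ℕ) ≤ y / 2 := by omega
      simp only [h3, h4, if_false, dif_pos h1]
      have h5 : e.symm ⟨((e ⟨s, hs3⟩ : T) : ℕ), h1⟩ = ⟨s, hs3⟩ := by
        rw [Equiv.symm_apply_eq]
      rw [h5]
    · have h1 : s ∉ S₁ ∧ s ∉ S₂.filter
          (fun s => ∀ p ∈ (Ioc z w).filter Nat.Prime, ¬ s ≡ b p [MOD p]) := by
        rw [hS₃, mem_union, not_or] at hs3; exact hs3
      have h2 : s ∈ S₂ := by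
        rw [hS₂, mem_filter]
        refine ⟨hsS, fun h3 => h1.1 ?_⟩
        rw [hS₁, mem_filter]
        exact ⟨hsS, h3⟩
      have h3 := h1.2
      rw [mem_filter] at h3
      push Not at h3
      obtain ⟨p, hp1, hp2⟩ := h3 h2
      rw [mem_filter, mem_Ioc] at hp1
      refine ⟨p, hp1.2, hp1.1.1, by omega, ?_⟩
      simp only [hp1.1.2, if_true]
      exact hp2
  · rw [hS, mem_filter, mem_Icc] at hsS
    push Not at hsS
    obtain ⟨p, hp1, hp2, hp3, hp4⟩ := hsS ⟨hs1, hs2⟩
    refine ⟨p, hp1, by omega, by omega, ?_⟩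
    have h3 : ¬ p ≤ w := by omega
    simp only [h3, hp3, if_false, if_true]
    exact (Nat.modEq_zero_iff_dvd).2 hp4

end Pool.Agent.TH662.GP
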