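import Pool.Agent.H256R2.SC.V
import Pool.Agent.TH662.GP.Arith
import Pool.Agent.TH662.GP.West

set_option autoImplicit false

/-! GP: long runs of integers with at least three prime factors. -/

open Finset Filter

namespace Pool.Agent.TH662.GP

open scoped Classical
open Pool.Agent.H256R2.SC (covering)

/-- Two distinct prime divisors with a small product force a third prime factor. -/
theorem three_le {n p q : ℕ} (hn : 0 < n) (hp : p.Prime) (hq : q.Prime) (hpq : p ≠ q)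
    (hpn : p ∣ n) (hqn : q ∣ n) (hlt : p * q < n) : 3 ≤ n.primeFactorsList.length := by
  have h1 : p * q ∣ n := Nat.Coprime.mul_dvd_of_dvd_of_dvd
    ((Nat.coprime_primes hp hq).2 hpq) hpn hqn
  obtain ⟨m, hm⟩ := h1
  have hm0 : m ≠ 0 := by rintro rfl; rw [hm] at hn; simp at hn
  have hm1 : m ≠ 1 := by rintro rfl; rw [hm] at hlt; simp at hlt
  have h2 : n.primeFactorsList.length =
      p.primeFactorsList.length + q.primeFactorsList.length + m.primeFactorsList.length := by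
    have e1 := (Nat.perm_primeFactorsList_mul (Nat.mul_ne_zero hp.ne_zero hq.ne_zero) hm0).length_eq
    have e2 := (Nat.perm_primeFactorsList_mul hp.ne_zero hq.ne_zero).length_eq
    rw [List.length_append] at e1 e2
    rw [hm, e1, e2]
  have h3 : 1 ≤ m.primeFactorsList.length := by
    have h4 : m.minFac ∈ m.primeFactorsList :=
      (Nat.mem_primeFactorsList hm0).2 ⟨Nat.minFac_prime hm1, Nat.minFac_dvd m⟩
    exact List.length_pos_of_mem h4
  rw [Nat.primeFactorsList_prime hp, Nat.primeFactorsList_prime hq] at h2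
  simp only [List.length_singleton] at h2
  omega

/-- Powers of `X` (as in `Pool.Agent.H378R2.RM.ApMain`). -/
theorem xpow (X l y : ℝ) (hXpos : 0 < X) (hl : l = Real.log X) (hl400 : 400 ≤ l) (hy0 : 0 < y)
    (hyl : y ≤ l / 10) :
    4 * (primorial ⌊y⌋₊ : ℝ) ≤ X ^ (1 / 2 : ℝ) ∧ 2 ≤ X ^ (1 / 10 : ℝ) ∧ X ^ (1 / 10 : ℝ) ≤ X / 4 ∧
      y ≤ X / 4 ∧ ∀ n t : ℝ, n ≤ X / 2 + primorial ⌊y⌋₊ → t ≤ l ^ 2 → n + t ≤ X := by
  -- powers of X
  have hXexp : X = Real.exp l := by rw [hl]; exact (Real.exp_log hXpos).symm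
  have hroot : ∀ a : ℝ, X ^ a = Real.exp (l * a) := fun a => by rw [hl]; exact Real.rpow_def_of_pos hXpos a
  have e2 : (4 : ℝ) ≤ Real.exp 2 := by
    have := Real.add_one_le_exp (1 : ℝ)
    calc (4 : ℝ) = 2 * 2 := by norm_num
      _ ≤ Real.exp 1 * Real.exp 1 := by gcongr <;> linarith
      _ = Real.exp 2 := by rw [← Real.exp_add]; norm_num
  have hexp4 : ∀ a b : ℝ, a + 2 ≤ b → 4 * Real.exp a ≤ Real.exp b := by
    intro a b hab
    calc 4 * Real.exp a ≤ Real.exp 2 * Real.exp a := by gcongr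
      _ = Real.exp (2 + a) := by rw [← Real.exp_add]
      _ ≤ Real.exp b := Real.exp_le_exp.2 (by linarith)
  have hP : (primorial ⌊y⌋₊ : ℝ) ≤ Real.exp (l / 5) := by
    have h1 : (primorial ⌊y⌋₊ : ℝ) ≤ 4 ^ ⌊y⌋₊ := by exact_mod_cast primorial_le_four_pow _
    refine h1.trans ?_
    calc (4 : ℝ) ^ ⌊y⌋₊ ≤ (Real.exp 2) ^ ⌊y⌋₊ := by gcongr
      _ = Real.exp (⌊y⌋₊ * 2) := by rw [← Real.exp_nat_mul]
      _ ≤ Real.exp (l / 5) := by
        apply Real.exp_le_exp.2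
        have := Nat.floor_le hy0.le
        linarith
  have hquad : l ^ 2 ≤ X / 8 := by
    have h1 : l / 4 ≤ Real.exp (l / 4) := by
      have := Real.add_one_le_exp (l / 4)
      linarith
    have h2 : (l / 4) ^ 2 ≤ Real.exp (l / 2) := by
      calc (l / 4) ^ 2 ≤ (Real.exp (l / 4)) ^ 2 := by gcongr
        _ = Real.exp (l / 2) := by
          rw [sq, ← Real.exp_add]
          congr 1
          ring
    have h3 : 128 * Real.exp (l / 2) ≤ X := by
      have a1 := hexp4 (l / 2) (l / 2 + 2) le_rfl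
      have a2 := hexp4 (l / 2 + 2) (l / 2 + 4) (by linarith)
      have a3 := hexp4 (l / 2 + 4) (l / 2 + 6) (by linarith)
      have a4 := hexp4 (l / 2 + 6) l (by linarith)
      rw [← hXexp] at a4
      have a5 := Real.exp_pos (l / 2)
      linarith
    nlinarith
  refine ⟨?_, ?_, ?_, ?_, ?_⟩
  · calc 4 * (primorial ⌊y⌋₊ : ℝ) ≤ 4 * Real.exp (l / 5) := by gcongr
        _ ≤ Real.exp (l * (1 / 2)) := hexp4 _ _ (by linarith)
        _ = X ^ (1 / 2 : ℝ) := (hroot _).symm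
  · rw [hroot]
    have h1 : Real.exp 2 ≤ Real.exp (l * (1 / 10)) := Real.exp_le_exp.2 (by linarith)
    linarith
  · rw [hroot]
    have h1 := hexp4 (l * (1 / 10)) l (by linarith)
    rw [← hXexp] at h1
    linarith
  · nlinarith
  · intro n t hn ht
    have h2 := hexp4 (l / 5) l (by linarith)
    rw [← hXexp] at h2
    linarith

/-- The numerical facts. -/
theorem ev_num (M y₀ z : ℕ) (X₁ : ℝ) : ∀ᶠ X : ℝ in atTop, X₁ ≤ X ∧ 1 ≤ X ∧
    y₀ ≤ ⌊Real.log X / 10⌋₊ ∧ z ≤ ⌊Real.log X / 10⌋₊ ∧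
    ((M * ⌊Real.log X / 10⌋₊ : ℕ) : ℝ) < (Real.log X) ^ 2 ∧
    ((⌊Real.log X / 10⌋₊ : ℕ) : ℝ) < (Real.log X) ^ 2 ∧
    4 * (primorial ⌊Real.log X / 10⌋₊ : ℝ) ≤ X ^ (1 / 2 : ℝ) ∧ 2 ≤ X ^ (1 / 10 : ℝ) ∧
    (Real.log X) ^ 2 * X ^ (1 / 10 : ℝ) ≤ X / 4 ∧ 8 ≤ X := by
  have t1 := Real.tendsto_log_atTop
  have h2 : ∀ᶠ X : ℝ in atTop, 4 * (Real.log X) ^ 2 ≤ X ^ (9 / 10 : ℝ) := by
    have h := (isLittleO_log_rpow_atTop (show (0 : ℝ) < 9 / 20 by norm_num)).def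
      (show (0 : ℝ) < 1 / 2 by norm_num)
    filter_upwards [h, eventually_ge_atTop (1 : ℝ)] with X h1 h2
    rw [Real.norm_of_nonneg (Real.log_nonneg h2),
      Real.norm_of_nonneg (Real.rpow_nonneg (by linarith) _)] at h1
    have h3 : X ^ (9 / 10 : ℝ) = X ^ (9 / 20 : ℝ) * X ^ (9 / 20 : ℝ) := by
      rw [← Real.rpow_add (by linarith)]; norm_num
    rw [h3]
    have h4 : 0 ≤ Real.log X := Real.log_nonneg h2
    nlinarith
  filter_upwards [eventually_ge_atTop X₁, eventually_ge_atTop (8 : ℝ), h2,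
    t1.eventually_ge_atTop (10 * (y₀ : ℝ)), t1.eventually_ge_atTop (10 * (z : ℝ)),
    t1.eventually_ge_atTop ((M : ℝ) + 1), t1.eventually_ge_atTop 400] with X e1 e2 e3 e4 e5 e6 e7
  have hX0 : 0 < X := by linarith
  obtain ⟨f1, f2, f3, f4, -⟩ := xpow X (Real.log X) (Real.log X / 10) hX0 rfl e7
    (by linarith) le_rfl
  have hfl : ((⌊Real.log X / 10⌋₊ : ℕ) : ℝ) ≤ Real.log X / 10 := Nat.floor_le (by linarith)
  refine ⟨e1, by linarith, ?_, ?_, ?_, ?_, f1, f2, ?_, e2⟩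
  · exact Nat.le_floor (by linarith)
  · exact Nat.le_floor (by linarith)
  · push_cast
    have hM : (0 : ℝ) ≤ M := Nat.cast_nonneg M
    calc (M : ℝ) * (⌊Real.log X / 10⌋₊ : ℕ) ≤ Real.log X * (Real.log X / 10) := by
          apply mul_le_mul (by linarith) hfl (Nat.cast_nonneg _) (by linarith)
      _ < Real.log X ^ 2 := by nlinarith
  · nlinarith
  · have h5 : X = X ^ (9 / 10 : ℝ) * X ^ (1 / 10 : ℝ) := by
      conv_lhs => rw [← Real.rpow_one X]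
      rw [← Real.rpow_add hX0]; norm_num
    have h6 : 4 * (Real.log X) ^ 2 * X ^ (1 / 10 : ℝ) ≤ X := by
      conv_rhs => rw [h5]
      exact mul_le_mul_of_nonneg_right e3 (Real.rpow_nonneg hX0.le _)
    linarith

/-- Runs of `M log X / 10` integers below `2 X`, each with at least three prime factors. -/
theorem run_three (M : ℕ) (hM : 0 < M) : ∀ᶠ X : ℝ in atTop, ∃ n : ℕ, X / 4 < n ∧ (n : ℝ) ≤ X ∧
    ∀ s, 1 ≤ s → s ≤ M * ⌊Real.log X / 10⌋₊ → 3 ≤ (n + s).primeFactorsList.length := by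
  obtain ⟨c, hc, X₁, hcov⟩ := covering
  have hM0 : (0 : ℝ) < M := by exact_mod_cast hM
  obtain ⟨z, hz, hprod⟩ := prod_small 0 (c / M) (by positivity)
  obtain ⟨y₀, hwest⟩ := westz M z hM
  filter_upwards [ev_num M y₀ z X₁] with X hX
  obtain ⟨g1, g2, g3, g4, g5, g6, g7, g8, g9, g10⟩ := hX
  have hX0 : 0 < X := by linarith
  have hlX : 0 ≤ Real.log X := Real.log_nonneg g2
  obtain ⟨y, hy⟩ : ∃ y : ℕ, y = ⌊Real.log X / 10⌋₊ := ⟨_, rfl⟩
  rw [← hy] at g3 g4 g5 g6 g7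
  rw [← hy]
  have hyl : (y : ℝ) ≤ Real.log X / 10 := by rw [hy]; exact Nat.floor_le (by linarith)
  obtain ⟨a, ha⟩ := hwest y g3
  obtain ⟨b, hb⟩ := greedy ((Ioc 0 z).filter Nat.Prime) (fun p hp => (mem_filter.1 hp).2.pos)
    (Finset.Icc 1 (M * y))
  obtain ⟨T, hT⟩ : ∃ T : Finset ℕ, T = (Finset.Icc 1 (M * y)).filter
    (fun s => ∀ p ∈ (Ioc 0 z).filter Nat.Prime, ¬ s ≡ b p [MOD p]) := ⟨_, rfl⟩
  have hb : (T.card : ℝ) ≤ (∏ p ∈ (Ioc 0 z).filter Nat.Prime, (1 - 1 / (p : ℝ))) *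
      ((Finset.Icc 1 (M * y)).card : ℝ) := by
    rw [hT]; convert hb
  have hTm : ∀ k, k ∈ T ↔ k ∈ Finset.Icc 1 (M * y) ∧
      ∀ p ∈ (Ioc 0 z).filter Nat.Prime, ¬ k ≡ b p [MOD p] := by
    intro k
    rw [hT]
    exact @Finset.mem_filter _ _ (_) _ _
  have hTI : ∀ k ∈ T, 1 ≤ k ∧ k ≤ M * y := by
    intro k hk
    rw [hTm, mem_Icc] at hk
    exact hk.1
  have hTc : (T.card : ℝ) ≤ c * Real.log X := by
    refine hb.trans ?_
    rw [Nat.card_Icc, Nat.add_sub_cancel]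
    push_cast
    calc (∏ p ∈ (Ioc 0 z).filter Nat.Prime, (1 - 1 / (p : ℝ))) * (M * y)
        ≤ (c / M) * (M * y) := mul_le_mul_of_nonneg_right hprod (by positivity)
      _ = c * y := by field_simp
      _ ≤ c * Real.log X := by
        apply mul_le_mul_of_nonneg_left _ hc.le
        linarith
  -- the residue classes of `x`
  obtain ⟨cl, hcl⟩ : ∃ cl : ℕ → ℕ, cl = fun p : ℕ =>
    ((-(((if p ≤ z then b p else a p : ℕ) : ℤ))) % (p : ℤ)).toNat := ⟨_, rfl⟩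
  obtain ⟨b0, hb0, hb0'⟩ := exists_crt y cl
  obtain ⟨Q, hQ⟩ : ∃ Q : ℕ, Q = primorial y := ⟨_, rfl⟩
  have hQ0 : 0 < Q := by rw [hQ]; exact primorial_pos y
  have hQR : (0 : ℝ) < Q := by exact_mod_cast hQ0
  have hQdvd : ∀ p : ℕ, p.Prime → p ≤ y → p ∣ Q := by
    intro p hp hpy
    rw [hQ, primorial]
    apply Finset.dvd_prod_of_mem
    rw [Finset.mem_filter, Finset.mem_range]
    exact ⟨by omega, hp⟩
  rw [← hQ] at g7
  obtain ⟨A', hA⟩ : ∃ A' : ℤ, A' = ⌊X / 4⌋ := ⟨_, rfl⟩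
  obtain ⟨B, hB⟩ : ∃ B : ℤ, B = ⌊X⌋ := ⟨_, rfl⟩
  have hAB : A' ≤ B := by rw [hA, hB]; exact Int.floor_mono (by linarith)
  have hA1 : (A' : ℝ) ≤ X / 4 := by rw [hA]; exact Int.floor_le _
  have hA2 : X / 4 < (A' : ℝ) + 1 := by rw [hA]; exact Int.lt_floor_add_one _
  have hB1 : (B : ℝ) ≤ X := by rw [hB]; exact Int.floor_le _
  have hB2 : X < (B : ℝ) + 1 := by rw [hB]; exact Int.lt_floor_add_one _
  have hX2 : 0 < X ^ (1 / 2 : ℝ) := Real.rpow_pos_of_pos hX0 _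
  have hXX : X ^ (1 / 2 : ℝ) * X ^ (1 / 2 : ℝ) = X := by
    rw [← Real.rpow_add hX0]; norm_num
  have hN : X ^ (1 / 2 : ℝ) ≤ ((B : ℝ) - A') / Q := by
    rw [le_div_iff₀ hQR]
    have h3 : X ^ (1 / 2 : ℝ) * (4 * (Q : ℝ)) ≤ X := by
      calc X ^ (1 / 2 : ℝ) * (4 * (Q : ℝ)) ≤ X ^ (1 / 2 : ℝ) * X ^ (1 / 2 : ℝ) :=
            mul_le_mul_of_nonneg_left g7 hX2.le
        _ = X := hXX
    nlinarith
  obtain ⟨x, hx, hxS⟩ := hcov X g1 ∅ (by
      rw [Finset.card_empty, Nat.cast_zero]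
      linarith) {h // h ∈ T} (by rw [Fintype.card_coe]; exact hTc)
    (fun _ k => -((k : ℕ) : ℤ))
    (by
      intro p hp hp1 _ _ k l hkl hd
      have hk := hTI _ k.2
      have hl := hTI _ l.2
      have h1 : ((M * y : ℕ) : ℝ) < p := by linarith
      have h2 : M * y < p := by exact_mod_cast h1
      have h3 : (l : ℕ) ≠ (k : ℕ) := fun h0 => hkl (Subtype.ext h0.symm)
      have h4 : -((k : ℕ) : ℤ) - -((l : ℕ) : ℤ) ≠ 0 := by omega
      have h5 := Int.le_of_dvd (abs_pos.mpr h4) ((dvd_abs _ _).mpr hd)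
      have h6 : |-((k : ℕ) : ℤ) - -((l : ℕ) : ℤ)| ≤ ((M * y : ℕ) : ℤ) := by
        rw [abs_le]
        constructor <;> omega
      omega)
    ((Ioc A' B).filter (fun x => (Q : ℤ) ∣ x - b0)) (((B : ℝ) - A') / Q) 1 hN zero_le_one
    (by linarith) (by
      intro q hq1 hq2 hq3 t
      have hq0 : 0 < q := Nat.pos_of_ne_zero hq1.ne_zero
      have hcop : Nat.Coprime Q q := by
        rw [Nat.coprime_iff_gcd_eq_one]
        by_contra hne
        obtain ⟨p, hp, hpd⟩ := Nat.exists_prime_and_dvd hne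
        have h1 : p ∣ Q := hpd.trans (Nat.gcd_dvd_left _ _)
        have h2 : p ∣ q := hpd.trans (Nat.gcd_dvd_right _ _)
        have h3 := (hq3 p (Nat.mem_primeFactors.mpr ⟨hp, h2, hq0.ne'⟩)).1
        rw [hQ] at h1
        have h4 : p ≤ y := (Nat.Prime.dvd_primorial_iff hp).1 h1
        have h5 : (p : ℝ) ≤ y := by exact_mod_cast h4
        linarith
      exact count_two A' B hAB Q q hQ0 hq0 hcop b0 t)
  rw [Finset.mem_filter, Finset.mem_Ioc] at hx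
  obtain ⟨⟨hx1, hx2⟩, hx3⟩ := hx
  have hxM : X / 4 < (x : ℝ) := by
    have : (A' : ℝ) + 1 ≤ x := by exact_mod_cast hx1
    linarith
  have hxX : (x : ℝ) ≤ X := by
    have : (x : ℝ) ≤ B := by exact_mod_cast hx2
    linarith
  have hx0 : 0 ≤ x := by
    have : (0 : ℝ) < x := by linarith
    exact_mod_cast this.le
  obtain ⟨x', rfl⟩ := Int.eq_ofNat_of_zero_le hx0
  have hxM' : X / 4 < (x' : ℝ) := by exact_mod_cast hxM
  have hxX' : (x' : ℝ) ≤ X := by exact_mod_cast hxX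
  have hcong : ∀ p : ℕ, p.Prime → p ≤ y → (p : ℤ) ∣ (x' : ℤ) + ((if p ≤ z then b p else a p : ℕ) : ℤ) := by
    intro p hp hpy
    have h1 : (p : ℤ) ∣ (x' : ℤ) - b0 := by
      refine dvd_trans ?_ hx3
      exact_mod_cast hQdvd p hp hpy
    have h2 : (p : ℤ) ∣ (b0 : ℤ) - (cl p : ℤ) :=
      Nat.modEq_iff_dvd.mp (hb0' p hp hpy).symm
    have h3 : (p : ℤ) ∣ (cl p : ℤ) - (-((if p ≤ z then b p else a p : ℕ) : ℤ)) := by
      rw [hcl]; exact toNat_mod _ p hp.pos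
    have h4 := dvd_add (dvd_add h1 h2) h3
    have e : (x' : ℤ) - b0 + ((b0 : ℤ) - cl p) + ((cl p : ℤ) - (-((if p ≤ z then b p else a p : ℕ) : ℤ)))
      = (x' : ℤ) + ((if p ≤ z then b p else a p : ℕ) : ℤ) := by ring
    rwa [e] at h4
  refine ⟨x', hxM', hxX', fun s hs1 hs2 => ?_⟩
  -- the first prime
  obtain ⟨p, hp1, hp2, hp3, hp4⟩ := ha s hs1 hs2
  have hps : p ∣ x' + s := by
    have h1 := hcong p hp1 hp3
    rw [if_neg (by omega)] at h1
    have h2 : (p : ℤ) ∣ (s : ℤ) - (a p : ℤ) := Nat.modEq_iff_dvd.mp hp4.symm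
    have h3 := dvd_add h1 h2
    have e : (x' : ℤ) + (a p : ℤ) + ((s : ℤ) - (a p : ℤ)) = ((x' + s : ℕ) : ℤ) := by push_cast; ring
    rw [e] at h3
    exact_mod_cast h3
  -- the second prime
  obtain ⟨q, hq1, hq2, hq3, hq4⟩ : ∃ q : ℕ, q.Prime ∧ q ∣ x' + s ∧ q ≠ p ∧
      (q : ℝ) ≤ X ^ (1 / 10 : ℝ) + z := by
    have hX10 : 0 ≤ X ^ (1 / 10 : ℝ) := by linarith
    have hz0 : (0 : ℝ) ≤ z := Nat.cast_nonneg z
    by_cases hsT : s ∈ T
    · obtain ⟨q, hq1, hq2, hq3, -, hq4⟩ := hxS ⟨s, hsT⟩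
      refine ⟨q, hq1, ?_, ?_, by linarith⟩
      · have e : ((x' : ℕ) : ℤ) - -((s : ℕ) : ℤ) = ((x' + s : ℕ) : ℤ) := by push_cast; ring
        have hq5 : (q : ℤ) ∣ ((x' : ℕ) : ℤ) - -((s : ℕ) : ℤ) := hq4
        rw [e] at hq5
        exact_mod_cast hq5
      · rintro rfl
        have : (q : ℝ) ≤ y := by exact_mod_cast hp3
        linarith
    · rw [hTm, mem_Icc] at hsT
      push Not at hsT
      obtain ⟨q, hq1, hq2⟩ := hsT ⟨hs1, hs2⟩
      rw [mem_filter, mem_Ioc] at hq1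
      refine ⟨q, hq1.2, ?_, by omega, ?_⟩
      · have h1 := hcong q hq1.2 (by omega)
        rw [if_pos hq1.1.2] at h1
        have h2 : (q : ℤ) ∣ (s : ℤ) - (b q : ℤ) := Nat.modEq_iff_dvd.mp hq2.symm
        have h3 := dvd_add h1 h2
        have e : (x' : ℤ) + (b q : ℤ) + ((s : ℤ) - (b q : ℤ)) = ((x' + s : ℕ) : ℤ) := by
          push_cast; ring
        rw [e] at h3
        exact_mod_cast h3
      · have : (q : ℝ) ≤ z := by exact_mod_cast hq1.1.2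
        linarith
  apply three_le (by omega) hp1 hq1 (Ne.symm hq3) hps hq2
  have hzy : (z : ℝ) ≤ y := by exact_mod_cast g4
  have hpy : (p : ℝ) ≤ y := by exact_mod_cast hp3
  have h1 : (p : ℝ) * q ≤ X / 4 := by
    by_cases hy1 : (y : ℝ) ≤ 1
    · have : (2 : ℝ) ≤ p := by exact_mod_cast hp1.two_le
      linarith
    · push Not at hy1
      have hX10 : 0 ≤ X ^ (1 / 10 : ℝ) := by linarith
      have h2 : (p : ℝ) * q ≤ y * (X ^ (1 / 10 : ℝ) + y) := by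
        apply mul_le_mul hpy (by linarith) (Nat.cast_nonneg _) (Nat.cast_nonneg _)
      refine h2.trans (le_trans ?_ g9)
      have hL : 10 * (y : ℝ) ≤ Real.log X := by linarith
      have h3 : (y : ℝ) * (X ^ (1 / 10 : ℝ) + y) ≤ y * (X ^ (1 / 10 : ℝ) + y * X ^ (1 / 10 : ℝ)) := by
        apply mul_le_mul_of_nonneg_left _ (Nat.cast_nonneg _)
        nlinarith
      refine h3.trans ?_
      have h4 : (y : ℝ) * (X ^ (1 / 10 : ℝ) + y * X ^ (1 / 10 : ℝ)) = (y + y ^ 2) * X ^ (1 / 10 : ℝ) := by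
        ring
      rw [h4]
      apply mul_le_mul_of_nonneg_right _ hX10
      nlinarith
  have h2 : ((p * q : ℕ) : ℝ) < ((x' + s : ℕ) : ℝ) := by
    push_cast
    have : (0 : ℝ) ≤ s := Nat.cast_nonneg s
    linarith
  exact_mod_cast h2

end Pool.Agent.TH662.GP
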